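import Mathlib
import Pool.Agent.R5.AO.FamA
import Pool.Agent.R5.AO.Acyc

set_option autoImplicit false

namespace Pool.Agent.Results.MP_7ef8f0_co.ThreeHalvesLog

open Pool.Agent.R5.AO Filter

/-- cubic graphs -/
def IsCubic {V : Type} (G : SimpleGraph V) : Prop := ∀ v, (G.neighborSet v).ncard = 3

/-- `b(n)`, the maximum girth of a cubic bipartite graph on `n` vertices -/
noncomputable def b (n : ℕ) : ℕ :=
  sSup {g | ∃ G : SimpleGraph (Fin n), IsCubic G ∧ G.Colorable 2 ∧ G.girth = g}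

/-- **`b(2m) ≥ (3/2 - ε) log₂ (2m)` for all large `m`.** -/
theorem result : ∀ ε : ℝ, 0 < ε → ∀ᶠ m : ℕ in atTop,
    (∃ G : SimpleGraph (Fin (2 * m)), IsCubic G ∧ G.Colorable 2 ∧ G.girth = b (2 * m)) ∧
    (3 / 2 - ε) * Real.logb 2 (2 * m) ≤ (b (2 * m) : ℝ) := by
  intro ε hε
  have hl2 : 0 < Real.log 2 := Real.log_pos (by norm_num)
  have hF := famA 2 Nat.prime_two.isPrimePow 3 (by norm_num) (by norm_num)
  obtain ⟨n0, h⟩ := core 3 (by norm_num) (2 / 3 * Real.log 2) (by positivity) hF (ε / Real.log 2)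
    (by positivity)
  filter_upwards [eventually_ge_atTop (n0 + 1)] with m hm
  obtain ⟨H, c, h1, h2, h3⟩ := h (2 * m) (by omega) (even_two_mul m)
  have v0 : Fin (2 * m) := ⟨0, by omega⟩
  have hcol : H.Colorable 2 := by
    have C : H.Coloring Bool := SimpleGraph.Coloring.mk c (fun {v w} hvw => h2 v w hvw)
    simpa using C.colorable
  have hac : ¬ H.IsAcyclic := not_acyclic H (fun v => by rw [h1]; norm_num) v0
  have hne : ∃ g, g ∈ {g | ∃ G : SimpleGraph (Fin (2 * m)), IsCubic G ∧ G.Colorable 2 ∧ G.girth = g} :=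
    ⟨H.girth, H, h1, hcol, rfl⟩
  have hbdd : BddAbove {g | ∃ G : SimpleGraph (Fin (2 * m)), IsCubic G ∧ G.Colorable 2 ∧ G.girth = g} := by
    refine ⟨2 * m, ?_⟩
    rintro g ⟨G, hG, -, rfl⟩
    have hac' : ¬ G.IsAcyclic := not_acyclic G (fun v => by rw [hG v]; norm_num) v0
    obtain ⟨a, w, hw, hw2⟩ := SimpleGraph.exists_girth_eq_length.2 hac'
    rw [hw2]
    have := cycle_length_le hw
    rwa [Fintype.card_fin] at this
  refine ⟨Nat.sSup_mem hne hbdd, ?_⟩
  have hle : H.girth ≤ b (2 * m) := le_csSup hbdd ⟨H, h1, hcol, rfl⟩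
  obtain ⟨a, w, hw, hw2⟩ := SimpleGraph.exists_girth_eq_length.2 hac
  have h4 := h3 a w hw
  rw [← hw2] at h4
  have h5 : (H.girth : ℝ) ≤ (b (2 * m) : ℝ) := by exact_mod_cast hle
  have h6 : ((2 * m : ℕ) : ℝ) = 2 * (m : ℝ) := by push_cast; ring
  rw [h6] at h4
  refine le_trans (le_of_eq ?_) (h4.trans h5)
  rw [Real.logb]
  field_simp

end Pool.Agent.Results.MP_7ef8f0_co.ThreeHalvesLog
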